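import Pool.Agent.Helper43K9.QS.Fin

set_option autoImplicit false

namespace Pool.Agent.Results.MP_a717c1_al.DirectSquareAll

open Pool.Agent.H741.QS

/-- The direct (tensor) product of two graphs. -/
def directProduct {V W : Type} (X : SimpleGraph V) (Y : SimpleGraph W) : SimpleGraph (V × W) where
  Adj a b := X.Adj a.1 b.1 ∧ Y.Adj a.2 b.2
  symm := ⟨fun _ _ h => ⟨h.1.symm, h.2.symm⟩⟩
  loopless := ⟨fun a h => X.loopless.irrefl a.1 h.1⟩

/-- The direct square of a finite graph `X` has no quantum symmetry if and only if `X` has at most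
one vertex, or `X` is connected, not bipartite, has no two distinct vertices with the same
neighbourhood, and has no quantum symmetry itself. -/
theorem result (V : Type) [Fintype V] (X : SimpleGraph V) :
    NoQuantumSymmetry (directProduct X X) ↔
      (Fintype.card V ≤ 1 ∨
        (X.Connected ∧ ¬ X.Colorable 2 ∧ (∀ x y, (∀ z, X.Adj x z ↔ X.Adj y z) → x = y) ∧
          NoQuantumSymmetry X)) := by
  by_cases h0 : Fintype.card V = 0
  · have hV : IsEmpty V := Fintype.card_eq_zero_iff.1 h0
    refine ⟨fun _ => Or.inl (by omega), fun _ => ?_⟩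
    intro A _ u _ _ x
    exact (hV.false x.1).elim
  · have hne : Nonempty V := Fintype.card_pos_iff.1 (Nat.pos_of_ne_zero h0)
    have h1 := Pool.Agent.Helper43K9.QS.direct_square V X
    constructor
    · intro h
      rcases h1.1 h with h2 | h2
      · exact Or.inl h2.le
      · exact Or.inr h2
    · rintro (h | h)
      · exact h1.2 (Or.inl (by omega))
      · exact h1.2 (Or.inr h)

end Pool.Agent.Results.MP_a717c1_al.DirectSquareAll
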